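import Pool.Agent.U543.GalDef

/-! Integral tuples whose quotients are in a set covered by few hypersurfaces (helper86). -/

set_option autoImplicit false

namespace Pool.Agent.U86.RC

open Finset Classical
open Pool.Agent.U543.GD (Covered)

lemma card_Icc (T : ℕ) : (Finset.Icc (-(T : ℤ)) T).card = 2 * T + 1 := by
  rw [Int.card_Icc]
  omega

/-- the integral tuples in a box whose quotient by `a` is a zero of `Q` -/
lemma zeros_box {n : ℕ} (hn : 1 ≤ n) {Q : MvPolynomial (Fin n) ℂ} (hQ : Q ≠ 0) {D : ℕ} (hD : Q.totalDegree ≤ D)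
    (T : ℕ) (a : ℤ) (ha : a ≠ 0) :
    ((Fintype.piFinset fun _ : Fin n => Finset.Icc (-(T : ℤ)) T).filter
      (fun β => MvPolynomial.eval (fun j => (β j : ℂ) / a) Q = 0)).card ≤ D * (2 * T + 1) ^ (n - 1) := by
  have ha' : (a : ℂ) ≠ 0 := by exact_mod_cast ha
  have hinj : Function.Injective (fun y : ℤ => (y : ℂ) / a) := by
    intro y z h
    have h' : (y : ℂ) / a = (z : ℂ) / a := h
    rw [div_left_inj' ha'] at h'
    exact_mod_cast h'
  obtain ⟨S, hS⟩ : ∃ S : Finset ℂ, S = (Finset.Icc (-(T : ℤ)) T).image (fun y : ℤ => (y : ℂ) / a) := ⟨_, rfl⟩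
  have hcS : S.card = 2 * T + 1 := by
    rw [hS, Finset.card_image_of_injective _ hinj, card_Icc]
  have h1 : ((Fintype.piFinset fun _ : Fin n => Finset.Icc (-(T : ℤ)) T).filter
      (fun β => MvPolynomial.eval (fun j => (β j : ℂ) / a) Q = 0)).card ≤
      ((Fintype.piFinset fun _ : Fin n => S).filter (fun f => MvPolynomial.eval f Q = 0)).card := by
    refine Finset.card_le_card_of_injOn (fun β j => (β j : ℂ) / a) ?_ ?_
    · intro β hβ
      rw [Finset.mem_coe, Finset.mem_filter, Fintype.mem_piFinset] at hβ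
      rw [Finset.mem_coe, Finset.mem_filter, Fintype.mem_piFinset]
      refine ⟨fun j => ?_, hβ.2⟩
      rw [hS]
      exact Finset.mem_image_of_mem _ (hβ.1 j)
    · intro β _ γ _ h
      funext j
      exact hinj (congrFun h j)
  refine h1.trans ?_
  have h2 := MvPolynomial.schwartz_zippel_totalDegree hQ S
  obtain ⟨c, hc⟩ : ∃ c : ℕ, c = ((Fintype.piFinset fun _ : Fin n => S).filter
    (fun f => MvPolynomial.eval f Q = 0)).card := ⟨_, rfl⟩
  rw [← hc] at h2 ⊢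
  rw [hcS] at h2
  have h3 : (c : ℚ≥0) ≤ D * ((2 * T + 1 : ℕ) : ℚ≥0) ^ (n - 1) := by
    have hpos : (0 : ℚ≥0) < ((2 * T + 1 : ℕ) : ℚ≥0) := by positivity
    rw [div_le_div_iff₀ (by positivity) hpos] at h2
    have h4 : (c : ℚ≥0) * ((2 * T + 1 : ℕ) : ℚ≥0) ≤
        (D * ((2 * T + 1 : ℕ) : ℚ≥0) ^ (n - 1)) * ((2 * T + 1 : ℕ) : ℚ≥0) := by
      refine h2.trans ?_
      have h5 : ((2 * T + 1 : ℕ) : ℚ≥0) ^ n = ((2 * T + 1 : ℕ) : ℚ≥0) ^ (n - 1) * ((2 * T + 1 : ℕ) : ℚ≥0) := by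
        rw [← pow_succ, Nat.sub_add_cancel hn]
      rw [h5, mul_assoc]
      exact mul_le_mul_left (by exact_mod_cast hD) _
    exact le_of_mul_le_mul_right h4 hpos
  exact_mod_cast h3

lemma zeros_all {n : ℕ} (hn : 1 ≤ n) {Q : MvPolynomial (Fin n) ℂ} (hQ : Q ≠ 0) {D : ℕ} (hD : Q.totalDegree ≤ D)
    (T : ℕ) :
    ((Fintype.piFinset fun _ : Fin (n + 1) => Finset.Icc (-(T : ℤ)) T).filter
      (fun α => α 0 ≠ 0 ∧ MvPolynomial.eval (fun j : Fin n => (α j.succ : ℂ) / (α 0 : ℤ)) Q = 0)).card ≤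
      (2 * T + 1) * (D * (2 * T + 1) ^ (n - 1)) := by
  have hmap : ∀ α ∈ ((Fintype.piFinset fun _ : Fin (n + 1) => Finset.Icc (-(T : ℤ)) T).filter
      (fun α => α 0 ≠ 0 ∧ MvPolynomial.eval (fun j : Fin n => (α j.succ : ℂ) / (α 0 : ℤ)) Q = 0)),
      (fun α : Fin (n + 1) → ℤ => α 0) α ∈ Finset.Icc (-(T : ℤ)) T := by
    intro α hα
    rw [Finset.mem_filter, Fintype.mem_piFinset] at hα
    exact hα.1 0
  rw [Finset.card_eq_sum_card_fiberwise hmap]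
  have h1 : ∀ a ∈ Finset.Icc (-(T : ℤ)) T, (((Fintype.piFinset fun _ : Fin (n + 1) => Finset.Icc (-(T : ℤ)) T).filter
      (fun α => α 0 ≠ 0 ∧ MvPolynomial.eval (fun j : Fin n => (α j.succ : ℂ) / (α 0 : ℤ)) Q = 0)).filter
        (fun α => α 0 = a)).card ≤ D * (2 * T + 1) ^ (n - 1) := by
    intro a _
    by_cases ha : a = 0
    · have : (((Fintype.piFinset fun _ : Fin (n + 1) => Finset.Icc (-(T : ℤ)) T).filter
        (fun α => α 0 ≠ 0 ∧ MvPolynomial.eval (fun j : Fin n => (α j.succ : ℂ) / (α 0 : ℤ)) Q = 0)).filter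
        (fun α => α 0 = a)) = ∅ := by
        rw [Finset.filter_eq_empty_iff]
        intro α hα h
        rw [Finset.mem_filter] at hα
        exact hα.2.1 (h.trans ha)
      rw [this, Finset.card_empty]
      exact Nat.zero_le _
    · refine le_trans ?_ (zeros_box hn hQ hD T a ha)
      refine Finset.card_le_card_of_injOn (fun α j => α j.succ) ?_ ?_
      · intro α hα
        rw [Finset.mem_coe, Finset.mem_filter, Finset.mem_filter, Fintype.mem_piFinset] at hα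
        rw [Finset.mem_coe, Finset.mem_filter, Fintype.mem_piFinset]
        refine ⟨fun j => hα.1.1 j.succ, ?_⟩
        have h := hα.1.2.2
        rw [hα.2] at h
        exact h
      · intro α hα β hβ h
        rw [Finset.mem_coe, Finset.mem_filter] at hα hβ
        funext i
        refine Fin.cases ?_ (fun j => ?_) i
        · rw [hα.2, hβ.2]
        · exact congrFun h j
  calc _ ≤ ∑ _a ∈ Finset.Icc (-(T : ℤ)) T, D * (2 * T + 1) ^ (n - 1) := Finset.sum_le_sum h1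
    _ = _ := by rw [Finset.sum_const, card_Icc, smul_eq_mul]

/-- the tuples of integers, the first of which is not zero, whose quotients by the first one form a point of `S T`, `T`
being the maximum of their absolute values -/
def Quot {n : ℕ} (S : ℝ → Set (Fin n → ℚ)) : Set (Fin (n + 1) → ℤ) :=
  {α | α 0 ≠ 0 ∧ ∃ T : ℕ, (∀ i, |α i| ≤ (T : ℤ)) ∧ (∃ i, |α i| = (T : ℤ)) ∧
    (fun j : Fin n => (α j.succ : ℚ) / (α 0 : ℤ)) ∈ S T}

theorem quot_count {n : ℕ} (hn : 1 ≤ n) (D : ℕ) (C T₀ : ℝ) (hC : 0 ≤ C) (hT₀ : 2 ≤ T₀) (S : ℝ → Set (Fin n → ℚ))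
    (hmono : ∀ T T' : ℝ, T ≤ T' → 0 ≤ T → S T ⊆ S T')
    (hS : ∀ T, T₀ ≤ T → Covered D ⌊C * T ^ (1 / 2 : ℝ)⌋₊
      ((fun (s : Fin n → ℚ) j => (algebraMap ℚ ℂ) (s j)) '' S T)) (T : ℕ) (hT : 1 ≤ T) :
    ({α : Fin (n + 1) → ℤ | (∀ i, |α i| ≤ (T : ℤ)) ∧ α ∈ Quot S}.ncard : ℝ) ≤
      (C * D * 3 ^ n + (3 * T₀) ^ (n + 1)) * (T : ℝ) ^ (((n + 1 : ℕ) : ℝ) - 1 / 2) := by
  have hT1 : (1 : ℝ) ≤ T := by exact_mod_cast hT
  have hT0 : (0 : ℝ) < T := by linarith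
  have hpow : (T : ℝ) ^ (((n + 1 : ℕ) : ℝ) - 1 / 2) = (T : ℝ) ^ n * (T : ℝ) ^ (1 / 2 : ℝ) := by
    rw [← Real.rpow_natCast, ← Real.rpow_add hT0]
    congr 1
    push_cast
    ring
  have hp1 : (1 : ℝ) ≤ (T : ℝ) ^ (((n + 1 : ℕ) : ℝ) - 1 / 2) := by
    refine Real.one_le_rpow hT1 ?_
    push_cast
    have : (0 : ℝ) ≤ n := Nat.cast_nonneg n
    linarith
  have hsub0 : {α : Fin (n + 1) → ℤ | (∀ i, |α i| ≤ (T : ℤ)) ∧ α ∈ Quot S} ⊆
      ↑(Fintype.piFinset fun _ : Fin (n + 1) => Finset.Icc (-(T : ℤ)) T) := by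
    rintro α ⟨h1, -⟩
    rw [Finset.mem_coe, Fintype.mem_piFinset]
    intro i
    rw [Finset.mem_Icc]
    exact abs_le.1 (h1 i)
  rcases le_or_gt T₀ (T : ℝ) with hTT | hTT
  · obtain ⟨Φ, hΦ1, hΦ2, hΦ3⟩ := hS T hTT
    have hsub : {α : Fin (n + 1) → ℤ | (∀ i, |α i| ≤ (T : ℤ)) ∧ α ∈ Quot S} ⊆
        ↑(Φ.biUnion fun Q => (Fintype.piFinset fun _ : Fin (n + 1) => Finset.Icc (-(T : ℤ)) T).filter
          (fun α => α 0 ≠ 0 ∧ MvPolynomial.eval (fun j : Fin n => (α j.succ : ℂ) / (α 0 : ℤ)) Q = 0)) := by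
      intro α hα
      have hbox := hsub0 hα
      obtain ⟨h1, h0, T', h2, ⟨i, h3⟩, h4⟩ := hα
      have hTT' : (T' : ℝ) ≤ T := by
        have : (T' : ℤ) ≤ T := by rw [← h3]; exact h1 i
        exact_mod_cast this
      have h5 := hmono _ _ hTT' (Nat.cast_nonneg _) h4
      obtain ⟨Q, hQ, hQ0⟩ := hΦ3 _ (Set.mem_image_of_mem _ h5)
      rw [Finset.mem_coe, Finset.mem_biUnion]
      refine ⟨Q, hQ, ?_⟩
      rw [Finset.mem_filter]
      refine ⟨hbox, h0, ?_⟩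
      rw [← hQ0]
      congr 2
      funext j
      simp
    have h6 : {α : Fin (n + 1) → ℤ | (∀ i, |α i| ≤ (T : ℤ)) ∧ α ∈ Quot S}.ncard ≤
        Φ.card * ((2 * T + 1) * (D * (2 * T + 1) ^ (n - 1))) := by
      refine (Set.ncard_le_ncard hsub (Finset.finite_toSet _)).trans ?_
      rw [Set.ncard_coe_finset]
      refine Finset.card_biUnion_le_card_mul _ _ _ (fun Q hQ => ?_)
      exact zeros_all hn (hΦ2 Q hQ).1 (hΦ2 Q hQ).2 T
    have h7 : (Φ.card : ℝ) ≤ C * (T : ℝ) ^ (1 / 2 : ℝ) := by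
      have h8 : (Φ.card : ℝ) ≤ (⌊C * (T : ℝ) ^ (1 / 2 : ℝ)⌋₊ : ℝ) := by exact_mod_cast hΦ1
      exact h8.trans (Nat.floor_le (by positivity))
    have h8 : ((2 * T + 1) * (D * (2 * T + 1) ^ (n - 1)) : ℕ) = D * (2 * T + 1) ^ n := by
      have : (2 * T + 1) ^ n = (2 * T + 1) ^ (n - 1) * (2 * T + 1) := by
        rw [← pow_succ, Nat.sub_add_cancel hn]
      rw [this]
      ring
    rw [h8] at h6
    have h9 : ({α : Fin (n + 1) → ℤ | (∀ i, |α i| ≤ (T : ℤ)) ∧ α ∈ Quot S}.ncard : ℝ) ≤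
        Φ.card * (D * (2 * T + 1 : ℝ) ^ n) := by exact_mod_cast h6
    have h10 : (2 * T + 1 : ℝ) ^ n ≤ 3 ^ n * (T : ℝ) ^ n := by
      rw [← mul_pow]
      exact pow_le_pow_left₀ (by positivity) (by linarith) n
    calc ({α : Fin (n + 1) → ℤ | (∀ i, |α i| ≤ (T : ℤ)) ∧ α ∈ Quot S}.ncard : ℝ)
        ≤ Φ.card * (D * (2 * T + 1 : ℝ) ^ n) := h9
      _ ≤ (C * (T : ℝ) ^ (1 / 2 : ℝ)) * (D * (3 ^ n * (T : ℝ) ^ n)) := by
          refine mul_le_mul h7 (mul_le_mul_of_nonneg_left h10 (Nat.cast_nonneg _)) (by positivity) (by positivity)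
      _ = (C * D * 3 ^ n) * (T : ℝ) ^ (((n + 1 : ℕ) : ℝ) - 1 / 2) := by rw [hpow]; ring
      _ ≤ _ := by
          refine mul_le_mul_of_nonneg_right ?_ (by positivity)
          have : 0 ≤ (3 * T₀) ^ (n + 1) := by positivity
          linarith
  · have h6 : {α : Fin (n + 1) → ℤ | (∀ i, |α i| ≤ (T : ℤ)) ∧ α ∈ Quot S}.ncard ≤ (2 * T + 1) ^ (n + 1) := by
      refine (Set.ncard_le_ncard hsub0 (Finset.finite_toSet _)).trans ?_
      rw [Set.ncard_coe_finset, Fintype.card_piFinset, Finset.prod_const, card_Icc, Finset.card_univ, Fintype.card_fin]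
    have h7 : ({α : Fin (n + 1) → ℤ | (∀ i, |α i| ≤ (T : ℤ)) ∧ α ∈ Quot S}.ncard : ℝ) ≤ (2 * T + 1 : ℝ) ^ (n + 1) := by
      exact_mod_cast h6
    have h8 : (2 * T + 1 : ℝ) ^ (n + 1) ≤ (3 * T₀) ^ (n + 1) :=
      pow_le_pow_left₀ (by positivity) (by linarith) _
    calc ({α : Fin (n + 1) → ℤ | (∀ i, |α i| ≤ (T : ℤ)) ∧ α ∈ Quot S}.ncard : ℝ)
        ≤ (3 * T₀) ^ (n + 1) := h7.trans h8
      _ ≤ (C * D * 3 ^ n + (3 * T₀) ^ (n + 1)) * 1 := by
          rw [mul_one]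
          have : 0 ≤ C * D * 3 ^ n := by positivity
          linarith
      _ ≤ _ := mul_le_mul_of_nonneg_left hp1 (by positivity)

end Pool.Agent.U86.RC
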