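import Pool.Agent.U543.LkDef
import Pool.Agent.U86.RatCount

/-! The rational points linked with a given Hodge structure, in terms of integral tuples (helper86). -/

set_option autoImplicit false

namespace Pool.Agent.U86.LQ

open NumberField
open Pool.Agent.U543.GD (Height Inner Covered)
open Pool.Agent.U543.LK
open Pool.Agent.U86.RC (Quot quot_count)

variable {ι : Type} [Fintype ι] [DecidableEq ι]

lemma linked_mono {wt : ℤ} {w : ι → ℤ} {S : Matrix ι ι ℤ} {M : Matrix ι ι ℂ} {r : ℕ} {w₀ : Fin r → ℤ}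
    {C₀ : Matrix (Fin r) (Fin r) ℂ} {k : ℕ} {H H' : ℝ} (hH : H ≤ H') (h : Linked wt w S M w₀ C₀ k H) :
    Linked wt w S M w₀ C₀ k H' := by
  intro g hg c hc
  refine h g (fun E hE => hg E ?_) c (fun E hE => hc E ?_)
  · obtain ⟨m, hm, v, J, hv, h1, h2⟩ := hE
    exact ⟨m, hm, v, J, fun I => (hv I).trans hH, h1, h2⟩
  · obtain ⟨v, J, hv, h1, h2⟩ := hE
    exact ⟨v, J, fun I => (hv I).trans hH, h1, h2⟩

lemma height_mono {T T' : ℝ} (hT : T ≤ T') : Height ℚ T ⊆ Height ℚ T' := by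
  rintro x ⟨a, b, hb, h1, h2, h3⟩
  exact ⟨a, b, hb, h1.trans hT, h2.trans hT, h3⟩

lemma linkedPoints_mono {n : ℕ} {wt : ℤ} {w : ι → ℤ} {S : Matrix ι ι ℤ} {U : Set (Fin n → ℂ)}
    {P : (Fin n → ℂ) → Matrix ι ι ℂ} {r : ℕ} {w₀ : Fin r → ℤ}
    {C₀ : Matrix (Fin r) (Fin r) ℂ} {k : ℕ} (T T' : ℝ) (hT : T ≤ T') (hT0 : 0 ≤ T) :
    LinkedPoints wt w S U P k ℚ (algebraMap ℚ ℂ) w₀ C₀ T ⊆ LinkedPoints wt w S U P k ℚ (algebraMap ℚ ℂ) w₀ C₀ T' := by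
  rintro s ⟨h1, h2, h3⟩
  exact ⟨fun j => height_mono hT (h1 j), h2, linked_mono (pow_le_pow_left₀ hT0 hT k) h3⟩

lemma div_mem_height {a b : ℤ} {T : ℝ} (hb : b ≠ 0) (ha : |(a : ℝ)| ≤ T) (hb' : |(b : ℝ)| ≤ T) :
    (a : ℚ) / (b : ℤ) ∈ Height ℚ T := by
  refine ⟨(a : 𝓞 ℚ), (b : 𝓞 ℚ), by exact_mod_cast hb, ?_, ?_, ?_⟩
  · have e : ((a : 𝓞 ℚ) : ℚ) = (a : ℚ) := by simp
    rw [e, house_intCast]
    exact_mod_cast ha
  · have e : ((b : 𝓞 ℚ) : ℚ) = (b : ℚ) := by simp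
    rw [e, house_intCast]
    exact_mod_cast hb'
  · simp

/-- the point `(α_1 / α_0, …, α_n / α_0)` -/
noncomputable def point {n : ℕ} (α : Fin (n + 1) → ℤ) : Fin n → ℂ := fun j => (α j.succ : ℂ) / (α 0 : ℤ)

/-- If the point `x = (α_1 / α_0, …, α_n / α_0)` is in `U`, of norm at most `k` and at distance at least `1 / k` from the
complement of `U`, then `V_x` is not linked with `M₀` by Hodge tensors of order at most `k` and of height at most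
`|α_i| ^ k`, for all `i`. -/
def NotLinked {n : ℕ} (wt : ℤ) (w : ι → ℤ) (S : Matrix ι ι ℤ) (U : Set (Fin n → ℂ))
    (P : (Fin n → ℂ) → Matrix ι ι ℂ) (k : ℕ) {r : ℕ} (w₀ : Fin r → ℤ) (C₀ : Matrix (Fin r) (Fin r) ℂ)
    (α : Fin (n + 1) → ℤ) : Prop :=
  point α ∈ Inner U k → ∀ i, ¬ Linked wt w S (P (point α)) w₀ C₀ k (|(α i : ℝ)| ^ k)

lemma notLinked_of {n : ℕ} {wt : ℤ} {w : ι → ℤ} {S : Matrix ι ι ℤ} {U : Set (Fin n → ℂ)}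
    {P : (Fin n → ℂ) → Matrix ι ι ℂ} {r : ℕ} {w₀ : Fin r → ℤ}
    {C₀ : Matrix (Fin r) (Fin r) ℂ} {k : ℕ} {α : Fin (n + 1) → ℤ} (h0 : α 0 ≠ 0)
    (h : α ∉ Quot (fun T => LinkedPoints wt w S U P k ℚ (algebraMap ℚ ℂ) w₀ C₀ T)) :
    NotLinked wt w S U P k w₀ C₀ α := by
  intro hin i hL
  refine h ⟨h0, ?_⟩
  obtain ⟨i₀, -, hi₀⟩ := Finset.exists_max_image Finset.univ (fun i => |α i|) ⟨i, Finset.mem_univ i⟩
  obtain ⟨T, hT⟩ : ∃ T : ℕ, T = (α i₀).natAbs := ⟨_, rfl⟩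
  have hT1 : (T : ℤ) = |α i₀| := by rw [hT]; exact Int.natCast_natAbs _
  have hle : ∀ i, |α i| ≤ (T : ℤ) := fun i => by rw [hT1]; exact hi₀ i (Finset.mem_univ i)
  have hleR : ∀ i, |(α i : ℝ)| ≤ (T : ℝ) := fun i => by exact_mod_cast hle i
  have e : (fun j : Fin n => (algebraMap ℚ ℂ) ((α j.succ : ℚ) / (α 0 : ℤ))) = point α := by
    funext j
    simp [point]
  refine ⟨T, hle, ⟨i₀, hT1.symm⟩, fun j => div_mem_height h0 (hleR _) (hleR _), ?_, ?_⟩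
  · show (fun j : Fin n => (algebraMap ℚ ℂ) ((α j.succ : ℚ) / (α 0 : ℤ))) ∈ Inner U k
    rw [e]
    exact hin
  · show Linked wt w S (P fun j : Fin n => (algebraMap ℚ ℂ) ((α j.succ : ℚ) / (α 0 : ℤ))) w₀ C₀ k ((T : ℝ) ^ k)
    rw [e]
    exact linked_mono (pow_le_pow_left₀ (abs_nonneg _) (hleR i) k) hL

/-- the count of the integral tuples which give a linked point -/
theorem link_count {n : ℕ} (hn : 1 ≤ n) {wt : ℤ} {w : ι → ℤ} {S : Matrix ι ι ℤ} {U : Set (Fin n → ℂ)}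
    {P : (Fin n → ℂ) → Matrix ι ι ℂ} {k : ℕ} {D : ℕ} {C T₀ : ℝ} (hC : 0 ≤ C) (hT₀ : 2 ≤ T₀) {r : ℕ} {w₀ : Fin r → ℤ}
    {C₀ : Matrix (Fin r) (Fin r) ℂ}
    (h : ∀ T, T₀ ≤ T → Covered D ⌊C * T ^ (1 / 2 : ℝ)⌋₊
      ((fun (s : Fin n → ℚ) j => (algebraMap ℚ ℂ) (s j)) '' LinkedPoints wt w S U P k ℚ (algebraMap ℚ ℂ) w₀ C₀ T))
    (T : ℕ) (hT : 1 ≤ T) :
    ({α : Fin (n + 1) → ℤ | (∀ i, |α i| ≤ (T : ℤ)) ∧
      α ∈ Quot (fun T => LinkedPoints wt w S U P k ℚ (algebraMap ℚ ℂ) w₀ C₀ T)}.ncard : ℝ) ≤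
      (C * D * 3 ^ n + (3 * T₀) ^ (n + 1)) * (T : ℝ) ^ (((n + 1 : ℕ) : ℝ) - 1 / 2) :=
  quot_count hn D C T₀ hC hT₀ (fun T => LinkedPoints wt w S U P k ℚ (algebraMap ℚ ℂ) w₀ C₀ T)
    (fun T T' h1 h2 => linkedPoints_mono T T' h1 h2) h T hT

end Pool.Agent.U86.LQ
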